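import Pool.Agent.Helper52.SX.Goals
import Pool.Agent.Helper81.CompC

/-!
# SX-FLT: search for tuples of decision lists (assembly)
-/

namespace Pool.Agent.Helper38.SX

open Pool.Agent.Helper81.CC Pool.Agent.Helper78.DT Pool.Agent.Helper65.CS Pool.Agent.Helper52.SX
open scoped Classical

theorem flt (hLpt : LptStmt) (hFnt : FntStmt) (hPlt : PltStmt) (hBrt : BrtStmt)
    (hPtl : PtlStmt) : FltStmt := by
  intro hC c w e
  obtain ⟨g, hg, hcnt⟩ := hC e (c + 4)
  obtain ⟨L0, hL⟩ := hLpt c w e g hcnt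
  obtain ⟨h, hh, hbf⟩ := hBrt (2 ^ L0)
  refine ⟨fun y => if L0 ≤ lg y.2.2 then srchT g y else h (y.1, y.2.1), ?_, ?_⟩
  · have hN : PolyTime (fun y : ℕ × Tup × ℕ => y.2.2) := by fun_prop
    have hlg : PolyTime (fun y : ℕ × Tup × ℕ => lg y.2.2) :=
      (hPtl (ℕ × Tup × ℕ) (fun y => y.2.2) (fun y => y.2.2) (fun y => y.2.2) hN hN hN).1
    have hp : PolyTime (fun y : ℕ × Tup × ℕ => (y.1, y.2.1)) := by fun_prop
    exact PolyTime.itep (PolyTime.decide_le (PolyTime.const L0) hlg) (hPlt g hg) (hh.comp hp)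
  · intro n N z hn hz he hf
    have hL0 : (0 : ℝ) < (lg N : ℝ) := by
      have : 0 < lg N := by unfold lg; omega
      exact_mod_cast this
    have hLc : (0 : ℝ) < (lg N : ℝ) ^ c := pow_pos hL0 c
    have h10 : 0 < 1 / (lg N : ℝ) ^ c := by positivity
    by_cases hlg : L0 ≤ lg N
    · have hif : (fun y : ℕ × Tup × ℕ => if L0 ≤ lg y.2.2 then srchT g y else h (y.1, y.2.1))
          (n, z, N) = srchT g (n, z, N) := if_pos hlg
      rw [hif]
      obtain ⟨h1, h2, h3⟩ := hL n N z hlg hn hz he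
      have h9 : 1 / (4 * (lg N : ℝ) ^ c) = 1 / (lg N : ℝ) ^ c / 4 := by
        field_simp
      have h11 : 0 < fract n (stT g n z N (TT (lg N))).2 := by
        rw [h9] at h3
        linarith
      exact hFnt n _ _ z _ h1 h2 h11
    · have hif : (fun y : ℕ × Tup × ℕ => if L0 ≤ lg y.2.2 then srchT g y else h (y.1, y.2.1))
          (n, z, N) = h (n, z) := if_neg hlg
      rw [hif]
      have h1 : N < 2 ^ (Nat.log 2 N + 1) := Nat.lt_pow_succ_log_self (by norm_num) _
      have h2 : lg N = Nat.log 2 N + 2 := rfl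
      have h3 : (2 : ℕ) ^ (Nat.log 2 N + 1) ≤ 2 ^ L0 :=
        Nat.pow_le_pow_right (by norm_num) (by omega)
      refine hbf n z (by omega) ?_
      have h4 : 0 < fract n z := lt_of_lt_of_le h10 hf
      by_contra hne
      push Not at hne
      have h5 : Nat.card {r : Fin n → Bool // tv r z = true} = 0 := by
        have : IsEmpty {r : Fin n → Bool // tv r z = true} := ⟨fun r => hne r.1 r.2⟩
        exact Nat.card_of_isEmpty
      unfold fract at h4
      rw [h5] at h4
      simp at h4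

end Pool.Agent.Helper38.SX
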